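import Mathlib

set_option autoImplicit false

/-!
# Project PP, piece (COMB), the counting (helper31)
-/

namespace Pool.Agent.J4H31.PP

theorem comb (r N : ℕ) (hr : 1 ≤ r) (hN : 4 * (r * (r + 2)) ≤ N) (hpar : N % 2 = r % 2) :
    ∃ (A m : ℕ) (S : Finset (Fin m × List (Fin m))), Odd A ∧ 3 ≤ A ∧ m < A ∧
      (∀ s ∈ S, (∀ a ∈ s.2, a < s.1) ∧ s.2.length + 1 = r ∧
        (A + 2 * (s.1 : ℕ)) + (s.2.map fun a => A + 2 * (a : ℕ)).sum = N) ∧
      (N / (2 * (r * (r + 2)))) ^ (r - 1) ≤ S.card := by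
  have hrN : r ≤ N := by nlinarith
  obtain ⟨e, he⟩ : ∃ e, N = r + 2 * e := ⟨(N - r) / 2, by omega⟩
  set c : ℕ := e / (r + 2) + 1 with hc
  have hc1 : e + 1 ≤ (r + 2) * c := by
    have := Nat.lt_mul_div_succ e (show 0 < r + 2 by omega)
    rw [hc]
    omega
  have hc2 : (r + 2) * c ≤ e + r + 2 := by
    have := Nat.mul_div_le e (r + 2)
    rw [hc, mul_add, mul_one]
    omega
  set B : ℕ := N / (2 * (r * (r + 2))) with hB
  have hB1 : B * (2 * (r * (r + 2))) ≤ N := Nat.div_mul_le_self _ _
  -- r B ≤ c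
  have hrB : r * B ≤ c := by
    by_contra hcon
    push Not at hcon
    have h1 : (r + 2) * (c + 1) ≤ (r + 2) * (r * B) := Nat.mul_le_mul_left _ hcon
    have h2 : 2 * ((r + 2) * (r * B)) ≤ r + 2 * e := by
      calc 2 * ((r + 2) * (r * B)) = B * (2 * (r * (r + 2))) := by ring
        _ ≤ N := hB1
        _ = r + 2 * e := he
    have h3 : (r + 2) * (c + 1) = (r + 2) * c + (r + 2) := by ring
    omega
  -- 3 ≤ c
  have hc3 : 3 ≤ c := by
    by_contra hcon
    push Not at hcon
    have h1 : (r + 2) * c ≤ (r + 2) * 2 := Nat.mul_le_mul_left _ (by omega)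
    have h2 : 4 * (r * (r + 2)) ≤ r + 2 * e := by omega
    have h3 : e + 1 ≤ (r + 2) * 2 := hc1.trans h1
    rcases Nat.lt_or_ge r 2 with h | h
    · have : r = 1 := by omega
      subst this
      omega
    · nlinarith
  -- M
  have hM1 : r * c ≤ e := by
    have h1 : (r + 2) * c = r * c + 2 * c := by ring
    have h2 : r ≤ 2 * c - 2 ∨ 2 * c - 2 < r := le_or_gt _ _
    rcases h2 with h2 | h2
    · omega
    · exfalso
      have h3 : (r + 2) * c ≤ (r + 2) * r := Nat.mul_le_mul_left _ (by omega)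
      have h4 : 4 * (r * (r + 2)) ≤ r + 2 * e := by omega
      have h5 : (r + 2) * r = r * (r + 2) := by ring
      have h6 : r ≤ r * (r + 2) := by nlinarith
      omega
  set M : ℕ := e - r * c with hM
  have hM2 : M + 1 ≤ 2 * c := by
    have h1 : (r + 2) * c = r * c + 2 * c := by ring
    omega
  have hM3 : 2 * c ≤ M + r + 2 := by
    have h1 : (r + 2) * c = r * c + 2 * c := by ring
    omega
  have hBm : ∀ f : Fin (r - 1) → Fin B, (∑ i, (f i : ℕ)) + B ≤ M ∨ r = 1 := by
    intro f
    rcases Nat.lt_or_ge r 2 with h | h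
    · right; omega
    · left
      have h1 : ∑ i, ((f i : ℕ) + 1) ≤ ∑ _i : Fin (r - 1), B := Finset.sum_le_sum fun i _ => (f i).2
      rw [Finset.sum_add_distrib] at h1
      simp only [Finset.sum_const, Finset.card_univ, Fintype.card_fin, smul_eq_mul, mul_one] at h1
      have h2 : (r - 1) * B + B = r * B := by
        obtain ⟨r', rfl⟩ : ∃ r', r = r' + 1 := ⟨r - 1, by omega⟩
        rw [Nat.add_sub_cancel]
        ring
      clear_value B c M
      generalize (r - 1) * B = X at h1 h2
      generalize r * B = Y at h2 hrB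
      omega
  have hsum : ∀ f : Fin (r - 1) → Fin B, ∑ i, (f i : ℕ) ≤ M := by
    intro f
    rcases hBm f with h | h
    · exact le_trans (Nat.le_add_right _ _) h
    · subst h
      simp
  have hBc : B ≤ 2 * c := by
    have : B ≤ r * B := Nat.le_mul_of_pos_left _ hr
    omega
  -- the map
  let F : (Fin (r - 1) → Fin B) → Fin (2 * c) × List (Fin (2 * c)) := fun f =>
    (⟨M - ∑ i, (f i : ℕ), by omega⟩, List.ofFn fun i => Fin.castLE hBc (f i))
  have hF : Function.Injective F := by
    intro f g hfg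
    have h1 := (Prod.mk.inj hfg).2
    have h2 := List.ofFn_injective h1
    funext i
    exact Fin.castLE_injective hBc (congrFun h2 i)
  refine ⟨2 * c + 1, 2 * c, Finset.univ.map ⟨F, hF⟩, ⟨c, rfl⟩, by omega, by omega, ?_, ?_⟩
  · intro s hs
    rw [Finset.mem_map] at hs
    obtain ⟨f, -, rfl⟩ := hs
    simp only [Function.Embedding.coeFn_mk]
    refine ⟨?_, ?_, ?_⟩
    · intro a ha
      simp only [F, List.mem_ofFn] at ha
      obtain ⟨i, rfl⟩ := ha
      rcases hBm f with h | h
      · rw [Fin.lt_def]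
        simp only [F, Fin.val_castLE]
        have := (f i).2
        omega
      · exfalso
        have := i.2
        omega
    · simp only [F, List.length_ofFn]
      omega
    · simp only [F, bind_pure_comp, List.map_eq_map, List.map_ofFn, List.sum_ofFn, Function.comp_def, Fin.val_castLE]
      rw [Finset.sum_add_distrib, ← Finset.mul_sum]
      simp only [Finset.sum_const, Finset.card_univ, Fintype.card_fin, smul_eq_mul]
      have h1 := hsum f
      have h2 : (r - 1) * (2 * c + 1) + (2 * c + 1) = r * (2 * c + 1) := by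
        obtain ⟨r', rfl⟩ : ∃ r', r = r' + 1 := ⟨r - 1, by omega⟩
        rw [Nat.add_sub_cancel]
        ring
      have h3 : r * (2 * c + 1) = 2 * (r * c) + r := by ring
      generalize (r - 1) * (2 * c + 1) = X at h2 ⊢
      omega
  · rw [Finset.card_map, Finset.card_univ, Fintype.card_fun, Fintype.card_fin, Fintype.card_fin]

universe u

theorem fr (k : Type u) [Field k] (E : Type u) [AddCommGroup E] [Module k E]
    (V W : Submodule k E) (_ : Module.Finite k V) (ι : Type) [Fintype ι] (h : ι → E)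
    (hV : ∀ i, h i ∈ V) (hW : ∀ c : ι → k, ∑ i, c i • h i ∈ W → c = 0) :
    Fintype.card ι ≤ Module.finrank k (V ⧸ W.submoduleOf V) := by
  have hli : LinearIndependent k (fun i => (W.submoduleOf V).mkQ (⟨h i, hV i⟩ : V)) := by
    rw [Fintype.linearIndependent_iff]
    intro c hc
    have h1 : (W.submoduleOf V).mkQ (∑ i, c i • (⟨h i, hV i⟩ : V)) = 0 := by
      rw [map_sum]
      simp only [map_smul]
      exact hc
    rw [Submodule.mkQ_apply, Submodule.Quotient.mk_eq_zero] at h1
    have h2 : ∑ i, c i • h i ∈ W := by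
      have h3 : ((∑ i, c i • (⟨h i, hV i⟩ : V) : V) : E) ∈ W := h1
      simpa using h3
    have := hW c h2
    intro i
    rw [this]
    rfl
  exact hli.fintype_card_le_finrank

theorem mono (k : Type u) [Field k] (E : Type u) [AddCommGroup E] [Module k E]
    (V V' A B : Submodule k E) (_ : Module.Finite k A) (hV : V ≤ V') (hB : B ≤ A) :
    Module.finrank k (↥(V ⊓ A) ⧸ (V ⊓ B).submoduleOf (V ⊓ A)) ≤
      Module.finrank k (↥(V' ⊓ A) ⧸ (V' ⊓ B).submoduleOf (V' ⊓ A)) := by
  have hle : V ⊓ A ≤ V' ⊓ A := inf_le_inf_right A hV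
  have hfin : Module.Finite k ↥(V' ⊓ A) := by
    have h1 : V' ⊓ A ≤ A := inf_le_right
    exact Module.Finite.of_injective (Submodule.inclusion h1) (Submodule.inclusion_injective h1)
  have hcomap : (V ⊓ B).submoduleOf (V ⊓ A) ≤ ((V' ⊓ B).submoduleOf (V' ⊓ A)).comap (Submodule.inclusion hle) := by
    intro x hx
    have hx' : ((x : E)) ∈ V ⊓ B := hx
    change ((x : E)) ∈ V' ⊓ B
    exact ⟨hV hx'.1, hx'.2⟩
  let φ := Submodule.mapQ ((V ⊓ B).submoduleOf (V ⊓ A)) ((V' ⊓ B).submoduleOf (V' ⊓ A)) (Submodule.inclusion hle) hcomap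
  have hinj : Function.Injective φ := by
    rw [← LinearMap.ker_eq_bot, LinearMap.ker_eq_bot']
    intro x hx
    obtain ⟨y, rfl⟩ := Submodule.Quotient.mk_surjective _ x
    have h1 : φ (Submodule.Quotient.mk y) = Submodule.Quotient.mk (Submodule.inclusion hle y) := rfl
    rw [h1, Submodule.Quotient.mk_eq_zero] at hx
    rw [Submodule.Quotient.mk_eq_zero]
    have hx' : ((y : E)) ∈ V' ⊓ B := hx
    change ((y : E)) ∈ V ⊓ B
    exact ⟨y.2.1, hx'.2⟩
  exact LinearMap.finrank_le_finrank_of_injective hinj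

end Pool.Agent.J4H31.PP
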