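import Pool.Agent.J4H43.PP.Stm
import Pool.Agent.J4H31.PP.CombCore

set_option autoImplicit false

/-!
# Project PP, pieces (COMB), (FR), (MONO) (helper31)
-/

namespace Pool.Agent.J4H31.PP

universe u

/-- (COMB) -/
theorem t_COMB : Pool.Agent.J4H43.PP.S_COMB := comb

/-- (FR) -/
theorem t_FR : Pool.Agent.J4H43.PP.S_FR.{u} := fr

/-- (MONO) -/
theorem t_MONO : Pool.Agent.J4H43.PP.S_MONO.{u} := mono

end Pool.Agent.J4H31.PP
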