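import Mathlib
import Pool.Agent.J4H31.PP.CombCore

set_option autoImplicit false

/-!
# Project PP, piece (COMB2), the counting (helper31)
-/

namespace Pool.Agent.J4H31.PP

theorem comb2 (r N : ℕ) (hr : 1 ≤ r) (hN : 5 * (r * (r + 2)) ≤ N) (hpar : N % 2 = r % 2) :
    ∃ (A m : ℕ) (S : Finset (Fin m × List (Fin m))), Odd A ∧ 3 ≤ A ∧ m < A ∧
      (∀ s ∈ S, (∀ a ∈ s.2, a < s.1) ∧ s.2.length + 1 = r ∧
        (A + 2 * (s.1 : ℕ)) + (s.2.map fun a => A + 2 * (a : ℕ)).sum = N) ∧
      (N / (5 * r)) ^ (r - 1) ≤ r * S.card := by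
  classical
  rcases Nat.lt_or_ge r 2 with hr2 | hr2
  · have h1 : r = 1 := by omega
    subst h1
    obtain ⟨A, m, S, h1, h2, h3, h4, h5⟩ := comb 1 N le_rfl (by omega) hpar
    refine ⟨A, m, S, h1, h2, h3, h4, ?_⟩
    simpa using h5
  have hrr : 1 ≤ r * (r + 2) := by nlinarith
  have hrN : r ≤ N := by nlinarith
  obtain ⟨e, he⟩ : ∃ e, N = r + 2 * e := ⟨(N - r) / 2, by omega⟩
  obtain ⟨B, hB⟩ : ∃ B, B = N / (5 * r) := ⟨_, rfl⟩
  have hB1 : 5 * (r * B) ≤ N := by
    rw [hB]
    have := Nat.div_mul_le_self N (5 * r)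
    calc 5 * (r * (N / (5 * r))) = N / (5 * r) * (5 * r) := by ring
      _ ≤ N := this
  have hB0 : 1 ≤ B := by
    rw [hB, Nat.le_div_iff_mul_le (by omega)]
    nlinarith
  have hNB : 4 * (r * B) + r * (r + 2) ≤ N := by omega
  rw [← hB]
  obtain ⟨p, hp⟩ : ∃ p, r = p + 2 := ⟨r - 2, by omega⟩
  have hp1 : r - 1 = p + 1 := by omega
  rw [hp1]
  -- sums
  have hsumle : ∀ f : Fin (p + 1) → Fin B, ∑ i, (f i : ℕ) + (p + 1) ≤ (p + 1) * B := by
    intro f
    have h1 : ∑ i, ((f i : ℕ) + 1) ≤ ∑ _i : Fin (p + 1), B := Finset.sum_le_sum fun i _ => (f i).2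
    rw [Finset.sum_add_distrib] at h1
    simpa using h1
  have hq' : ∀ f : Fin (p + 1) → Fin B, (∑ i, (f i : ℕ)) / B ≤ p := by
    intro f
    by_contra hcon
    push Not at hcon
    have h1 : (p + 1) * B ≤ (∑ i, (f i : ℕ)) / B * B := Nat.mul_le_mul_right _ hcon
    have h2 := Nat.div_mul_le_self (∑ i, (f i : ℕ)) B
    have h3 := hsumle f
    omega
  -- pigeonhole
  obtain ⟨q, hq0, hq⟩ : ∃ q, q ≤ p ∧ B ^ (p + 1) ≤ r * (Finset.univ.filter fun f : Fin (p + 1) → Fin B => (∑ i, (f i : ℕ)) / B = q).card := by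
    by_contra hcon
    push Not at hcon
    have h1 := Finset.card_eq_sum_card_fiberwise (s := (Finset.univ : Finset (Fin (p + 1) → Fin B)))
      (t := Finset.range (p + 1)) (f := fun f => (∑ i, (f i : ℕ)) / B) (by
        intro f _
        simp only [Finset.coe_range, Set.mem_Iio]
        have := hq' f
        omega)
    rw [Finset.card_univ, Fintype.card_fun, Fintype.card_fin, Fintype.card_fin] at h1
    have h2 : r * B ^ (p + 1) < r * B ^ (p + 1) := by
      calc r * B ^ (p + 1) = ∑ b ∈ Finset.range (p + 1), r * (Finset.univ.filter fun f : Fin (p + 1) → Fin B => (∑ i, (f i : ℕ)) / B = b).card := by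
            rw [← Finset.mul_sum, ← h1]
        _ < ∑ b ∈ Finset.range (p + 1), B ^ (p + 1) := by
            apply Finset.sum_lt_sum_of_nonempty ⟨0, by simp⟩
            intro b hb
            exact hcon b (by have := Finset.mem_range.mp hb; omega)
        _ = (p + 1) * B ^ (p + 1) := by simp
        _ ≤ r * B ^ (p + 1) := Nat.mul_le_mul_right _ (by omega)
    exact lt_irrefl _ h2
  -- the constants
  obtain ⟨s0, hs0⟩ : ∃ s0, s0 = q * B := ⟨_, rfl⟩
  have hs1 : s0 ≤ p * B := by rw [hs0]; exact Nat.mul_le_mul_right _ hq0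
  have hrB : r * B = p * B + 2 * B := by rw [hp]; ring
  have hra : r ≤ r * (r + 2) := Nat.le_mul_of_pos_right _ (by omega)
  have hs2 : s0 ≤ e := by
    clear hB
    omega
  obtain ⟨e', he'⟩ : ∃ e', e = s0 + e' := ⟨e - s0, by omega⟩
  obtain ⟨c, hc⟩ : ∃ c, c = e' / (r + 2) + 1 := ⟨_, rfl⟩
  have hc1 : e' + 1 ≤ (r + 2) * c := by
    have := Nat.lt_mul_div_succ e' (show 0 < r + 2 by omega)
    rw [hc]
    omega
  have hc2 : (r + 2) * c ≤ e' + r + 2 := by
    have := Nat.mul_div_le e' (r + 2)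
    rw [hc, mul_add, mul_one]
    omega
  have hrc : (r + 2) * c = r * c + 2 * c := by ring
  have hT : r * c + 2 * B ≤ e' + 1 := by
    by_contra hcon
    push Not at hcon
    have h1 : (r + 2) * (e' + 2) ≤ (r + 2) * (r * c + 2 * B) := Nat.mul_le_mul_left _ hcon
    have h2 : (r + 2) * (r * c + 2 * B) = r * ((r + 2) * c) + 2 * (r * B) + 4 * B := by ring
    have h3 : r * ((r + 2) * c) ≤ r * (e' + r + 2) := Nat.mul_le_mul_left _ hc2
    have h4 : r * (e' + r + 2) = r * e' + r * (r + 2) := by ring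
    have h5 : (r + 2) * (e' + 2) = r * e' + 2 * e' + 2 * r + 4 := by ring
    generalize r * e' = X at *
    generalize r * ((r + 2) * c) = Y at *
    omega
  have hfs : ∀ f : Fin (p + 1) → Fin B, (∑ i, (f i : ℕ)) / B = q → s0 ≤ ∑ i, (f i : ℕ) ∧ ∑ i, (f i : ℕ) < s0 + B := by
    intro f hf
    have h1 := Nat.div_mul_le_self (∑ i, (f i : ℕ)) B
    have h2 := Nat.lt_mul_div_succ (∑ i, (f i : ℕ)) (show 0 < B by omega)
    rw [hf] at h1 h2
    have h3 : B * (q + 1) = q * B + B := by ring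
    omega
  obtain ⟨m, hm⟩ : ∃ m, r * c + m = e' + 1 := ⟨e' + 1 - r * c, by omega⟩
  have hBm : B ≤ m := by omega
  let F : {f : Fin (p + 1) → Fin B // (∑ i, (f i : ℕ)) / B = q} → Fin m × List (Fin m) := fun f =>
    (⟨e - r * c - ∑ i, (f.1 i : ℕ), by have := hfs f.1 f.2; omega⟩, List.ofFn fun i => Fin.castLE hBm (f.1 i))
  have hF : Function.Injective F := by
    intro f g hfg
    have h1 := (Prod.mk.inj hfg).2
    have h2 := List.ofFn_injective h1
    apply Subtype.ext
    funext i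
    exact Fin.castLE_injective hBm (congrFun h2 i)
  refine ⟨2 * c + 1, m, Finset.univ.map ⟨F, hF⟩, ⟨c, rfl⟩, by omega, by omega, ?_, ?_⟩
  · intro s hs
    rw [Finset.mem_map] at hs
    obtain ⟨f, -, rfl⟩ := hs
    have hf := hfs f.1 f.2
    simp only [Function.Embedding.coeFn_mk]
    refine ⟨?_, ?_, ?_⟩
    · intro a ha
      simp only [F, List.mem_ofFn] at ha
      obtain ⟨i, rfl⟩ := ha
      rw [Fin.lt_def]
      simp only [F, Fin.val_castLE]
      have := (f.1 i).2
      omega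
    · simp only [F, List.length_ofFn]
      omega
    · simp only [F, bind_pure_comp, List.map_eq_map, List.map_ofFn, List.sum_ofFn, Function.comp_def, Fin.val_castLE]
      rw [Finset.sum_add_distrib, ← Finset.mul_sum]
      simp only [Finset.sum_const, Finset.card_univ, Fintype.card_fin, smul_eq_mul]
      have h2 : (p + 1) * (2 * c + 1) + (2 * c + 1) = 2 * (r * c) + r := by
        rw [hp]
        ring
      generalize (p + 1) * (2 * c + 1) = X at h2 ⊢
      omega
  · rw [Finset.card_map, Finset.card_univ, Fintype.card_subtype]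
    exact hq

end Pool.Agent.J4H31.PP
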