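import Mathlib

set_option autoImplicit false

/-!
# Project PP, piece (UP), linear algebra and the words (helper31)
-/

namespace Pool.Agent.J4H31.PP

universe u

theorem quot_le (k : Type u) [Field k] (E : Type u) [AddCommGroup E] [Module k E] (P W : Submodule k E)
    (ι : Type) [Fintype ι] (Φ : E →ₗ[k] (ι → k)) (h : ∀ f ∈ P, Φ f = 0 → f ∈ W) :
    Module.finrank k (P ⧸ W.submoduleOf P) ≤ Fintype.card ι := by
  let φ : P →ₗ[k] (ι → k) := Φ.comp P.subtype
  have hker : LinearMap.ker φ ≤ W.submoduleOf P := by
    intro x hx
    have h1 : Φ (x : E) = 0 := hx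
    exact h x x.2 h1
  have h1 : Module.finrank k (LinearMap.range φ) ≤ Fintype.card ι := by
    have := Submodule.finrank_le (LinearMap.range φ)
    rwa [Module.finrank_fintype_fun_eq_card] at this
  let e := φ.quotKerEquivRange
  have hfin : Module.Finite k (P ⧸ LinearMap.ker φ) := Module.Finite.equiv e.symm
  have h2 : Module.finrank k (P ⧸ LinearMap.ker φ) = Module.finrank k (LinearMap.range φ) := e.finrank_eq
  have h3 : Function.Surjective (Submodule.factor hker) := Submodule.factor_surjective hker
  have h4 := LinearMap.finrank_le_finrank_of_surjective h3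
  omega

/-- the word of a set of positions -/
def wd {M : ℕ} (s : Finset (Fin M)) : List (Fin 2) := List.ofFn fun i => if i ∈ s then 1 else 0

theorem exists_wd (w : List (Fin 2)) : ∃ s : Finset (Fin w.length), w = wd s ∧ s.card = w.count 1 := by
  classical
  refine ⟨Finset.univ.filter fun i => w.get i = 1, ?_, ?_⟩
  · unfold wd
    apply List.ext_get
    · simp
    · intro n h1 h2
      simp only [List.get_ofFn, Finset.mem_filter, Finset.mem_univ, true_and]
      split_ifs with h
      · simpa using h
      · have h3 : ∀ x : Fin 2, x ≠ 1 → x = 0 := by decide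
        exact h3 _ (by simpa using h)
  · rw [List.count_eq_countP]
    induction w with
    | nil => simp
    | cons a l ih =>
      change (Finset.univ.filter fun i : Fin (l.length + 1) => (a :: l).get i = 1).card = _
      rw [Fin.card_filter_univ_succ, List.countP_cons]
      have h0 : (a :: l).get (0 : Fin (l.length + 1)) = a := rfl
      have h1 : ∀ i : Fin l.length, (a :: l).get i.succ = l.get i := fun i => rfl
      rw [h0]
      simp only [h1, ih]
      by_cases ha : a = 1 <;> simp [ha]

end Pool.Agent.J4H31.PP
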