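import Pool.Agent.J4H43.PP.Stm
import Pool.Agent.J4H31.PP.UpCore

set_option autoImplicit false

/-!
# Project PP, piece (UP): the upper bound (helper31)
-/

namespace Pool.Agent.J4H31.PP

open Pool.Agent.Helper392_GT Pool.Agent.J4H43.FR Pool.Agent.J4H43.SW Pool.Agent.J4H43.MW Pool.Agent.J4H43.PP

universe u

attribute [local instance 100] LieRing.ofAssociativeRing

theorem wt_fin' {k : Type u} [Field k] (n : ℕ) : Module.Finite k (wt k n) := by
  have h : ∀ n, Module.Finite k (wt k (n + 1)) := by
    intro n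
    induction n with
    | zero =>
      change Module.Finite k (Submodule.span k {FreeLieAlgebra.of k 0, FreeLieAlgebra.of k 1} : Submodule k (F2 k))
      exact Module.Finite.span_of_finite k (by simp)
    | succ n ih =>
      have h1 : Module.Finite k ((wt k (n + 1)).map
          ((LieAlgebra.ad k (F2 k) (FreeLieAlgebra.of k 0) : Module.End k (F2 k))) : Submodule k (F2 k)) :=
        Module.Finite.map _ _
      have h2 : Module.Finite k ((wt k (n + 1)).map
          ((LieAlgebra.ad k (F2 k) (FreeLieAlgebra.of k 1) : Module.End k (F2 k))) : Submodule k (F2 k)) :=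
        Module.Finite.map _ _
      have h3 : wt k (n + 1 + 1) ≤ (wt k (n + 1)).map
          ((LieAlgebra.ad k (F2 k) (FreeLieAlgebra.of k 0) : Module.End k (F2 k))) ⊔
          (wt k (n + 1)).map ((LieAlgebra.ad k (F2 k) (FreeLieAlgebra.of k 1) : Module.End k (F2 k))) := by
        change Submodule.span k _ ≤ _
        rw [Submodule.span_le]
        rintro v ⟨u, hu, rfl | rfl⟩
        · exact Submodule.mem_sup_left ⟨u, hu, rfl⟩
        · exact Submodule.mem_sup_right ⟨u, hu, rfl⟩
      exact Submodule.finiteDimensional_of_le h3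
  cases n with
  | zero =>
    change Module.Finite k ((⊥ : Submodule k (F2 k)))
    infer_instance
  | succ n => exact h n

/-- the coefficients at the words that end with `y` -/
noncomputable def Phi (k : Type u) [Field k] (M c : ℕ) :
    F2 k →ₗ[k] ({s : Finset (Fin M) // s.card = c} → k) :=
  LinearMap.pi fun s => (wc (FreeMonoid.ofList (Pool.Agent.J4H31.PP.wd s.1) * FreeMonoid.of 1)).comp
    (toAssoc k : F2 k →ₗ[k] FreeAlgebra k (Fin 2))

theorem Phi_apply (k : Type u) [Field k] (M c : ℕ) (f : F2 k) (s : {s : Finset (Fin M) // s.card = c}) :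
    Phi k M c f s = wordCoeff k f (FreeMonoid.ofList (Pool.Agent.J4H31.PP.wd s.1) * FreeMonoid.of 1) := rfl

/-- (UP) -/
theorem t_UP : S_END.{u} → S_UP.{u} := by
  intro hEND k _ _ V N r hN hr
  refine ⟨wt_fin' N, ?_⟩
  unfold dimG
  have h := quot_le k (F2 k) (pc V N r) (pc V N (r + 1)) {s : Finset (Fin (N - 1)) // s.card = r - 1} (Phi k (N - 1) (r - 1)) ?_
  · rwa [Fintype.card_finset_len, Fintype.card_fin] at h
  · intro f hf hΦ
    obtain ⟨⟨hfV, hfw⟩, hfd⟩ := hf
    refine ⟨⟨hfV, hfw⟩, ?_⟩
    refine hEND k N r hN hr f hfw hfd ?_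
    intro w hw1 hw2
    obtain ⟨s, hs, hc⟩ := exists_wd (FreeMonoid.toList w)
    have hlen : (FreeMonoid.toList w).length = N - 1 := by
      have : (FreeMonoid.toList w).length = w.length := rfl
      omega
    have hcard : s.card = r - 1 := by omega
    -- transport to positions in `Fin (N - 1)`
    obtain ⟨s', hs', hc'⟩ : ∃ s' : Finset (Fin (N - 1)), FreeMonoid.toList w = wd s' ∧ s'.card = r - 1 := by
      rw [← hlen]
      exact ⟨s, hs, hcard⟩
    have h1 : Phi k (N - 1) (r - 1) f ⟨s', hc'⟩ = 0 := by rw [hΦ]; rfl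
    rw [Phi_apply] at h1
    have h2 : FreeMonoid.ofList (wd s') = w := by
      rw [← hs']
      rfl
    rw [h2] at h1
    exact h1

end Pool.Agent.J4H31.PP
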